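import Pool.Agent.R619.Proj

/-!
# There is no universal countable projective algebra of plane sets

For each set `W` of natural numbers there is a plane set `cod W` and there are terms `tst n`, not
depending on `W`, such that the value of `tst n` at `cod W` is empty iff `n ∉ W`. So in a projective
algebra `U` into which all the (countable) projective algebras generated by one set `cod W` embed,
the images of the generators are pairwise different members of `U`.
-/

set_option autoImplicit false

namespace Pool.Agent.Results.MP_3db952_lc.NoUniversalAlgebra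

open Pool.Agent.R619.Proj

/-- No countable projective algebra is universal: it is not true that each countable projective
algebra is isomorphic to a subalgebra of it. -/
theorem result : ¬ ∃ U : Set (Set (ℝ × ℝ)), IsProjAlg U ∧ U.Countable ∧
    ∀ F : Set (Set (ℝ × ℝ)), IsProjAlg F → F.Countable →
      ∃ V : Set (Set (ℝ × ℝ)), V ⊆ U ∧ IsProjAlg V ∧ Isomorphic F V := by
  rintro ⟨U, hU, hUc, h⟩
  have h' : ∀ W : Set ℕ, ∃ φ : Set (ℝ × ℝ) → Set (ℝ × ℝ), φ (cod W) ∈ U ∧
      IsHom φ (gen (k := 1) fun _ => cod W) ∧ Set.InjOn φ (gen (k := 1) fun _ => cod W) := by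
    intro W
    obtain ⟨V, hVU, -, φ, hφ⟩ := h _ (isProjAlg_gen (k := 1) fun _ => cod W) (gen_countable _)
    exact ⟨φ, hVU (hφ.bij.mapsTo (mem_gen (k := 1) (fun _ => cod W) 0)), hφ.isHom, hφ.bij.injOn⟩
  choose φ h1 h2 h3 using h'
  have hinj : Function.Injective (fun W : Set ℕ => (⟨φ W (cod W), h1 W⟩ : U)) := by
    intro W W' e
    exact cod_determined (isProjAlg_gen _) (isProjAlg_gen _) (h2 W) (h2 W') (h3 W) (h3 W')
      (mem_gen (k := 1) (fun _ => cod W) 0) (mem_gen (k := 1) (fun _ => cod W') 0)
      (congrArg Subtype.val e)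
  have : Countable U := hUc.to_subtype
  have hc : Countable (Set ℕ) := hinj.countable
  have h4 : Cardinal.mk (Set ℕ) ≤ Cardinal.aleph0 := Cardinal.mk_le_aleph0_iff.2 hc
  rw [Cardinal.mk_set, Cardinal.mk_nat] at h4
  exact absurd h4 (not_le.2 (Cardinal.cantor _))

end Pool.Agent.Results.MP_3db952_lc.NoUniversalAlgebra
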